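import Mathlib
import Pool.Agent.Y18.GX.Trace

/-!
# The functional `Λ(f) = ∑_t w_t ∑_{i < x_t} f'(i)`

If `w_{t+N₁} = ξ w_t` and `x_{t+N₁} = x_t + h`, `x_{t+L} = x_t + 1` in the field then
`ξ Λ(f(X + h)) = Λ(f) + ∑_{t < N₁} w_t f'(x_t)` for polynomials of degree less than the characteristic.
-/

set_option autoImplicit false

namespace Pool.Agent.R480.TC

open Finset Polynomial

section

variable {k : Type*} [Field k]

/-- `∑_{i < n} g(i)` -/
noncomputable def Sg (g : k[X]) (n : ℕ) : k := ∑ i ∈ range n, g.eval ((i : ℕ) : k)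

lemma Sg_add (g : k[X]) (m n : ℕ) : Sg g (m + n) = Sg g m + ∑ i ∈ range n, g.eval (((m + i : ℕ)) : k) := by
  unfold Sg
  rw [Finset.sum_range_add]

variable {p : ℕ} [Fact p.Prime] [CharP k p]

variable (p) in
lemma sum_pow_zero (j : ℕ) (hj : j + 1 < p) : ∑ i ∈ range p, ((i : ℕ) : k) ^ j = 0 := by
  have h1 : ∑ x : ZMod p, x ^ j = 0 :=
    FiniteField.sum_pow_lt_card_sub_one (ZMod p) j (by rw [ZMod.card]; omega)
  have hp0 : p ≠ 0 := (Fact.out : p.Prime).ne_zero
  have h2 : ∑ i ∈ range p, ((i : ℕ) : ZMod p) ^ j = 0 := by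
    rw [← h1]
    refine Finset.sum_nbij' (fun i => ((i : ℕ) : ZMod p)) (fun x => x.val) ?_ ?_ ?_ ?_ ?_
    · intro i _
      exact Finset.mem_univ _
    · intro x _
      exact mem_range.2 (ZMod.val_lt x)
    · intro i hi
      exact ZMod.val_cast_of_lt (mem_range.1 hi)
    · intro x _
      exact ZMod.natCast_zmod_val x
    · intro i _
      rfl
  have h3 := congrArg (ZMod.castHom (dvd_refl p) k) h2
  rw [map_sum, map_zero] at h3
  simpa only [map_pow, map_natCast] using h3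

variable (p) in
lemma Sg_p (g : k[X]) (hg : g.natDegree + 1 < p) : Sg g p = 0 := by
  unfold Sg
  simp only [Polynomial.eval_eq_sum_range]
  rw [Finset.sum_comm]
  refine Finset.sum_eq_zero fun j hj => ?_
  rw [mem_range] at hj
  rw [← Finset.mul_sum, sum_pow_zero p j (by omega), mul_zero]

variable (p) in
lemma Sg_p_add (g : k[X]) (hg : g.natDegree + 1 < p) (n : ℕ) : Sg g (p + n) = Sg g n := by
  rw [Sg_add, Sg_p p g hg, zero_add]
  unfold Sg
  refine Finset.sum_congr rfl fun i _ => ?_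
  rw [Nat.cast_add, CharP.cast_eq_zero, zero_add]

variable (p) in
lemma Sg_mod (g : k[X]) (hg : g.natDegree + 1 < p) (n : ℕ) : Sg g n = Sg g (n % p) := by
  have h1 : ∀ c r : ℕ, Sg g (p * c + r) = Sg g r := by
    intro c
    induction c with
    | zero => intro r; rw [mul_zero, zero_add]
    | succ c ih =>
      intro r
      rw [Nat.mul_succ, add_comm (p * c) p, add_assoc, Sg_p_add p g hg, ih]
  conv_lhs => rw [← Nat.div_add_mod n p]
  exact h1 _ _

variable (p) in
lemma Sg_cong (g : k[X]) (hg : g.natDegree + 1 < p) {m n : ℕ} (h : ((m : ℕ) : k) = n) : Sg g m = Sg g n := by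
  rw [Sg_mod p g hg m, Sg_mod p g hg n, (CharP.natCast_eq_natCast (R := k) p).1 h]

/-- the functional -/
noncomputable def Lam (w : ℕ → k) (x : ℕ → ℕ) (L : ℕ) (f : k[X]) : k :=
  ∑ t ∈ range L, w t * Sg (derivative f) (x t)

lemma Sg_add' (f g : k[X]) (n : ℕ) : Sg (f + g) n = Sg f n + Sg g n := by
  unfold Sg
  rw [← Finset.sum_add_distrib]
  simp

lemma Lam_add (w : ℕ → k) (x : ℕ → ℕ) (L : ℕ) (f g : k[X]) :
    Lam w x L (f + g) = Lam w x L f + Lam w x L g := by
  unfold Lam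
  rw [derivative_add, ← Finset.sum_add_distrib]
  refine Finset.sum_congr rfl fun t _ => ?_
  rw [Sg_add', mul_add]

lemma Lam_C_mul (w : ℕ → k) (x : ℕ → ℕ) (L : ℕ) (c : k) (f : k[X]) :
    Lam w x L (C c * f) = c * Lam w x L f := by
  unfold Lam Sg
  rw [derivative_C_mul]
  simp only [eval_mul, eval_C, Finset.mul_sum]
  refine Finset.sum_congr rfl fun t _ => Finset.sum_congr rfl fun i _ => ?_
  ring

lemma Lam_sum (w : ℕ → k) (x : ℕ → ℕ) (L : ℕ) {ι : Type*} (s : Finset ι) (f : ι → k[X]) :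
    Lam w x L (∑ i ∈ s, f i) = ∑ i ∈ s, Lam w x L (f i) := by
  classical
  induction s using Finset.induction_on with
  | empty => simp [Lam, Sg]
  | insert a s ha ih => rw [Finset.sum_insert ha, Finset.sum_insert ha, Lam_add, ih]

lemma natDegree_shift (f : k[X]) (h : k) : (f.comp (X + C h)).natDegree = f.natDegree := by
  rw [natDegree_comp, natDegree_X_add_C, mul_one]

variable (p) in
/-- the basic relation -/
theorem rel (w : ℕ → k) (x : ℕ → ℕ) (L N₁ H : ℕ) (ξ : k) (hw : ∀ t, w (t + N₁) = ξ * w t)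
    (hwL : ∀ t, w (t + L) = w t) (hsum : ∑ t ∈ range L, w t = 0) (hx : ∀ t, x (t + N₁) = x t + H)
    (hxL : ∀ t, ((x (t + L) : ℕ) : k) = (x t : k) + 1) (f : k[X]) (hf : f.natDegree < p) :
    ξ * Lam w x L (f.comp (X + C ((H : ℕ) : k))) =
      Lam w x L f + ∑ t ∈ range N₁, w t * (derivative f).eval ((x t : ℕ) : k) := by
  have hp2 := (Fact.out : p.Prime).two_le
  set g := derivative f with hg
  have hgd : g.natDegree + 1 < p := by
    have := natDegree_derivative_le f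
    rw [← hg] at this
    omega
  have h1 : ∀ n, Sg (derivative (f.comp (X + C ((H : ℕ) : k)))) n = Sg g (H + n) - Sg g H := by
    intro n
    rw [Sg_add, add_sub_cancel_left]
    unfold Sg
    refine Finset.sum_congr rfl fun i _ => ?_
    rw [derivative_comp]
    simp only [derivative_add, derivative_X, derivative_C, add_zero, one_mul, eval_comp, eval_add, eval_X,
      eval_C, ← hg]
    congr 1
    push_cast
    ring
  set v : ℕ → k := fun t => w t * Sg g (x t) with hv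
  have h2 : ξ * Lam w x L (f.comp (X + C ((H : ℕ) : k))) = ∑ t ∈ range L, v (N₁ + t) := by
    have h3 : ∑ t ∈ range L, v (N₁ + t) =
        ξ * Lam w x L (f.comp (X + C ((H : ℕ) : k))) + ξ * Sg g H * ∑ t ∈ range L, w t := by
      unfold Lam
      rw [Finset.mul_sum, Finset.mul_sum, ← Finset.sum_add_distrib]
      refine Finset.sum_congr rfl fun t _ => ?_
      simp only [hv]
      rw [add_comm N₁ t, hw, hx, h1, add_comm (x t) H]
      ring
    rw [h3, hsum, mul_zero, add_zero]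
  have h4 : ∑ t ∈ range N₁, v t + ∑ t ∈ range L, v (N₁ + t) =
      ∑ t ∈ range L, v t + ∑ t ∈ range N₁, v (L + t) := by
    rw [← Finset.sum_range_add, ← Finset.sum_range_add, add_comm N₁ L]
  have h5 : ∀ t, v (L + t) = v t + w t * g.eval ((x t : ℕ) : k) := by
    intro t
    simp only [hv]
    rw [add_comm L t, hwL]
    have h6 : Sg g (x (t + L)) = Sg g (x t + 1) := by
      apply Sg_cong p g hgd
      rw [hxL]
      push_cast
      rfl
    rw [h6]
    have h7 : Sg g (x t + 1) = Sg g (x t) + g.eval ((x t : ℕ) : k) := by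
      unfold Sg
      rw [Finset.sum_range_succ]
    rw [h7]
    ring
  simp only [h5] at h4
  rw [Finset.sum_add_distrib] at h4
  rw [h2]
  have h8 : Lam w x L f = ∑ t ∈ range L, v t := rfl
  rw [h8]
  linear_combination h4

variable (p) in
/-- the relation for the product `(ξ E - 1) (ξ - E)` -/
theorem rel2 (w : ℕ → k) (x : ℕ → ℕ) (L N₁ H : ℕ) (ξ : k) (hw : ∀ t, w (t + N₁) = ξ * w t)
    (hwL : ∀ t, w (t + L) = w t) (hsum : ∑ t ∈ range L, w t = 0) (hx : ∀ t, x (t + N₁) = x t + H)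
    (hxL : ∀ t, ((x (t + L) : ℕ) : k) = (x t : k) + 1) (f : k[X]) (hf : f.natDegree < p) :
    (ξ ^ 2 + 1) * Lam w x L (f.comp (X + C ((H : ℕ) : k))) -
      ξ * Lam w x L (f.comp (X + C (2 * ((H : ℕ) : k)))) - ξ * Lam w x L f =
      ∑ t ∈ range N₁, w t * (ξ * (derivative f).eval ((x t : ℕ) : k) -
        (derivative f).eval (((x t : ℕ) : k) + (H : ℕ))) := by
  have h1 := rel p w x L N₁ H ξ hw hwL hsum hx hxL f hf
  have h2 := rel p w x L N₁ H ξ hw hwL hsum hx hxL (f.comp (X + C ((H : ℕ) : k)))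
    (by rw [natDegree_shift]; exact hf)
  have h3 : (f.comp (X + C ((H : ℕ) : k))).comp (X + C ((H : ℕ) : k)) = f.comp (X + C (2 * ((H : ℕ) : k))) := by
    rw [comp_assoc]
    congr 1
    simp only [add_comp, X_comp, C_comp, map_mul]
    have : (C (2 : k) : k[X]) = 2 := rfl
    rw [this]
    ring
  rw [h3] at h2
  have h4 : ∀ t : ℕ, (derivative (f.comp (X + C ((H : ℕ) : k)))).eval ((x t : ℕ) : k) =
      (derivative f).eval (((x t : ℕ) : k) + (H : ℕ)) := by
    intro t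
    rw [derivative_comp]
    simp only [derivative_add, derivative_X, derivative_C, add_zero, one_mul, eval_comp, eval_add, eval_X,
      eval_C]
  simp only [h4] at h2
  have h5 : ∑ t ∈ range N₁, w t * (ξ * (derivative f).eval ((x t : ℕ) : k) -
        (derivative f).eval (((x t : ℕ) : k) + (H : ℕ))) =
      ξ * ∑ t ∈ range N₁, w t * (derivative f).eval ((x t : ℕ) : k) -
        ∑ t ∈ range N₁, w t * (derivative f).eval (((x t : ℕ) : k) + (H : ℕ)) := by
    rw [Finset.mul_sum, ← Finset.sum_sub_distrib]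
    refine Finset.sum_congr rfl fun t _ => ?_
    ring
  rw [h5]
  linear_combination ξ * h1 - h2

/-- `(X + c)^n` -/
lemma Lam_shift (w : ℕ → k) (x : ℕ → ℕ) (L n : ℕ) (c : k) :
    Lam w x L ((X + C c) ^ n) = ∑ i ∈ range (n + 1), (n.choose i : k) * c ^ (n - i) * Lam w x L (X ^ i) := by
  rw [add_pow, Lam_sum]
  refine Finset.sum_congr rfl fun i _ => ?_
  have : (X : k[X]) ^ i * C c ^ (n - i) * (n.choose i : k[X]) =
      C ((n.choose i : k) * c ^ (n - i)) * X ^ i := by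
    rw [map_mul, map_pow, map_natCast]
    ring
  rw [this, Lam_C_mul]

/-- `(c - X)^n` -/
lemma Lam_shift' (w : ℕ → k) (x : ℕ → ℕ) (L n : ℕ) (c : k) :
    Lam w x L ((C c - X) ^ n) =
      ∑ i ∈ range (n + 1), (n.choose i : k) * c ^ (n - i) * ((-1) ^ i * Lam w x L (X ^ i)) := by
  have h0 : (C c - X : k[X]) = (-X) + C c := by ring
  rw [h0, add_pow, Lam_sum]
  refine Finset.sum_congr rfl fun i _ => ?_
  have : (-X : k[X]) ^ i * C c ^ (n - i) * (n.choose i : k[X]) =
      C ((n.choose i : k) * c ^ (n - i) * (-1) ^ i) * X ^ i := by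
    rw [map_mul, map_mul, map_pow, map_pow, map_natCast, map_neg, map_one, neg_pow]
    ring
  rw [this, Lam_C_mul]
  ring

variable (p) in
/-- the relation for the part of a given parity -/
theorem rel3 (w : ℕ → k) (x : ℕ → ℕ) (L N₁ H : ℕ) (ξ : k) (hw : ∀ t, w (t + N₁) = ξ * w t)
    (hwL : ∀ t, w (t + L) = w t) (hsum : ∑ t ∈ range L, w t = 0) (hx : ∀ t, x (t + N₁) = x t + H)
    (hxL : ∀ t, ((x (t + L) : ℕ) : k) = (x t : k) + 1) (ε : k) (δ : ℕ → k)
    (hδ : ∀ i, δ i = Lam w x L (X ^ i) + ε * ((-1) ^ i * Lam w x L (X ^ i))) (n : ℕ) (hn : n < p) :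
    (ξ ^ 2 + 1) * (∑ i ∈ range (n + 1), (n.choose i : k) * ((H : ℕ) : k) ^ (n - i) * δ i) -
      ξ * (∑ i ∈ range (n + 1), (n.choose i : k) * (2 * ((H : ℕ) : k)) ^ (n - i) * δ i) -
      ξ * (∑ i ∈ range (n + 1), (n.choose i : k) * 0 ^ (n - i) * δ i) =
      ∑ t ∈ range N₁, w t * (ξ * ((n : k) * ((x t : ℕ) : k) ^ (n - 1)) -
        (n : k) * (((x t : ℕ) : k) + (H : ℕ)) ^ (n - 1) + ε * ((n : k) * (((H : ℕ) : k) - (x t : ℕ)) ^ (n - 1)) -
        ε * ξ * ((n : k) * (2 * ((H : ℕ) : k) - (x t : ℕ)) ^ (n - 1))) := by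
  have hS : ∀ c : k, ∑ i ∈ range (n + 1), (n.choose i : k) * c ^ (n - i) * δ i =
      Lam w x L ((X + C c) ^ n) + ε * Lam w x L ((C c - X) ^ n) := by
    intro c
    rw [Lam_shift, Lam_shift', Finset.mul_sum, ← Finset.sum_add_distrib]
    refine Finset.sum_congr rfl fun i _ => ?_
    rw [hδ]
    ring
  rw [hS, hS, hS]
  have h1 := rel2 p w x L N₁ H ξ hw hwL hsum hx hxL (X ^ n) (by rw [natDegree_X_pow]; exact hn)
  have h2 := rel2 p w x L N₁ H ξ hw hwL hsum hx hxL ((C (2 * ((H : ℕ) : k)) - X) ^ n) (by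
    refine lt_of_le_of_lt (natDegree_pow_le) ?_
    have : (C (2 * ((H : ℕ) : k)) - X : k[X]).natDegree ≤ 1 := by
      refine (natDegree_sub_le _ _).trans ?_
      rw [natDegree_C, natDegree_X]
      simp
    calc n * (C (2 * ((H : ℕ) : k)) - X : k[X]).natDegree ≤ n * 1 := Nat.mul_le_mul_left _ this
      _ < p := by omega)
  simp only [pow_comp, X_comp, sub_comp, C_comp] at h1 h2
  have e1 : (C (2 * ((H : ℕ) : k)) - (X + C ((H : ℕ) : k)) : k[X]) = C ((H : ℕ) : k) - X := by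
    rw [map_mul]
    have : (C (2 : k) : k[X]) = 2 := rfl
    rw [this]
    ring
  have e2 : (C (2 * ((H : ℕ) : k)) - (X + C (2 * ((H : ℕ) : k))) : k[X]) = C 0 - X := by
    rw [map_zero]
    ring
  have e3 : (X + C 0 : k[X]) = X := by rw [map_zero, add_zero]
  rw [e1, e2] at h2
  rw [e3]
  have d1 : derivative ((X : k[X]) ^ n) = C (n : k) * X ^ (n - 1) := by
    rw [derivative_X_pow]
  have d2 : derivative ((C (2 * ((H : ℕ) : k)) - X) ^ n : k[X]) =
      - (C (n : k) * (C (2 * ((H : ℕ) : k)) - X) ^ (n - 1)) := by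
    rw [derivative_pow, derivative_sub, derivative_C, derivative_X]
    ring
  rw [d1] at h1
  rw [d2] at h2
  simp only [eval_mul, eval_C, eval_pow, eval_X, eval_neg, eval_sub] at h1 h2
  have h5 : ∑ t ∈ range N₁, w t * (ξ * ((n : k) * ((x t : ℕ) : k) ^ (n - 1)) -
        (n : k) * (((x t : ℕ) : k) + (H : ℕ)) ^ (n - 1) + ε * ((n : k) * (((H : ℕ) : k) - (x t : ℕ)) ^ (n - 1)) -
        ε * ξ * ((n : k) * (2 * ((H : ℕ) : k) - (x t : ℕ)) ^ (n - 1))) =
      ∑ t ∈ range N₁, w t * (ξ * ((n : k) * ((x t : ℕ) : k) ^ (n - 1)) -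
        (n : k) * (((x t : ℕ) : k) + (H : ℕ)) ^ (n - 1)) +
      ε * ∑ t ∈ range N₁, w t * (ξ * -((n : k) * (2 * ((H : ℕ) : k) - (x t : ℕ)) ^ (n - 1)) -
        -((n : k) * (2 * ((H : ℕ) : k) - (((x t : ℕ) : k) + (H : ℕ))) ^ (n - 1))) := by
    rw [Finset.mul_sum, ← Finset.sum_add_distrib]
    refine Finset.sum_congr rfl fun t _ => ?_
    have : (2 * ((H : ℕ) : k) - (((x t : ℕ) : k) + (H : ℕ))) = ((H : ℕ) : k) - (x t : ℕ) := by ring
    rw [this]
    ring
  rw [h5]
  linear_combination h1 + ε * h2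

end

end Pool.Agent.R480.TC
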