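import Mathlib
import Pool.Agent.R480.TC.Lam
import Pool.Agent.TH350.RC.Main

/-!
# The number of the nonzero moments of the functional
-/

set_option autoImplicit false

namespace Pool.Agent.R480.TC

open Finset Polynomial Pool.Agent.TH350.RC

section

variable {k : Type*} [Field k]

/-- the frequencies -/
def lam (x : ℕ → k) (h : k) : ℕ ⊕ ℕ × ℕ → k
  | Sum.inl 0 => h
  | Sum.inl 1 => 2 * h
  | Sum.inl _ => 0
  | Sum.inr (0, t) => x t
  | Sum.inr (1, t) => x t + h
  | Sum.inr (2, t) => h - x t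
  | Sum.inr (_, t) => 2 * h - x t

/-- the coefficients -/
def bc (w δ : ℕ → k) (ξ ε : k) : ℕ ⊕ ℕ × ℕ → ℕ → k
  | Sum.inl 0, i => (ξ ^ 2 + 1) * δ i
  | Sum.inl 1, i => -ξ * δ i
  | Sum.inl _, i => -ξ * δ i
  | Sum.inr (0, t), i => if i = 1 then -(w t * ξ) else 0
  | Sum.inr (1, t), i => if i = 1 then w t else 0
  | Sum.inr (2, t), i => if i = 1 then -(ε * w t) else 0
  | Sum.inr (_, t), i => if i = 1 then ε * ξ * w t else 0

variable {p : ℕ} [Fact p.Prime] [CharP k p]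

lemma cast_inj' {a b : ℕ} (ha : a < p) (hb : b < p) (h : (a : k) = b) : a = b :=
  CharP.natCast_injOn_Iio k p ha hb h

variable (p) in
theorem core (w : ℕ → k) (x : ℕ → ℕ) (L N₁ H : ℕ) (ξ : k) (hw : ∀ t, w (t + N₁) = ξ * w t)
    (hwL : ∀ t, w (t + L) = w t) (hsum : ∑ t ∈ range L, w t = 0) (hx : ∀ t, x (t + N₁) = x t + H)
    (hxL : ∀ t, ((x (t + L) : ℕ) : k) = (x t : k) + 1) (e : ℕ) (M : ℕ) (hM : M < p)
    (U : Finset ℕ) (hU : U ⊆ range N₁) (hUw : ∀ t ∈ range N₁, t ∉ U → w t = 0) (h0U : 0 ∈ U)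
    (hw0 : w 0 ≠ 0) (hξ : ξ ≠ 0)
    (hd1 : ((x 0 : ℕ) : k) ≠ 0) (hd2 : ((x 0 : ℕ) : k) ≠ (H : ℕ)) (hd3 : ((x 0 : ℕ) : k) ≠ 2 * (H : ℕ))
    (hd4 : ∀ t ∈ U, t ≠ 0 → ((x t : ℕ) : k) ≠ (x 0 : ℕ))
    (hd5 : ∀ t ∈ U, ((x t : ℕ) : k) + (H : ℕ) ≠ (x 0 : ℕ))
    (hd6 : ∀ t ∈ U, ((H : ℕ) : k) - (x t : ℕ) ≠ (x 0 : ℕ))
    (hd7 : ∀ t ∈ U, 2 * ((H : ℕ) : k) - (x t : ℕ) ≠ (x 0 : ℕ))
    (S : Finset ℕ)
    (hS : ∀ m, 2 ≤ m → m ≤ M → Even (m + e) → m ∉ S → Lam w x L (X ^ m : k[X]) = 0) :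
    2 * M ≤ (4 * U.card + 3) * (4 * U.card + 2) * (S.card + 1) ^ 2 := by
  classical
  rcases Nat.eq_zero_or_pos M with hM0 | hM1
  · subst hM0
    simp
  have hpp : p.Prime := Fact.out
  set ε : k := (-1) ^ e with hε
  set δ : ℕ → k := fun i => Lam w x L (X ^ i) + ε * ((-1) ^ i * Lam w x L (X ^ i)) with hδ
  set G : Finset ℕ := (Icc 1 M).filter (fun m => δ m ≠ 0) with hG
  set T : Finset ℕ := insert 1 G with hT
  have hTM : ∀ i ∈ T, i ≤ M := by
    intro i hi
    rw [hT, mem_insert, hG, mem_filter, mem_Icc] at hi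
    omega
  have hTsub : T ⊆ range (M + 1) := fun i hi => mem_range.2 (Nat.lt_succ_of_le (hTM i hi))
  have hδ0 : δ 0 = 0 := by
    have : Lam w x L (X ^ 0 : k[X]) = 0 := by
      unfold Lam Sg
      simp
    simp only [hδ]
    rw [this]
    ring
  have hTn : ∀ i ∈ range (M + 1), i ∉ T → δ i = 0 := by
    intro i hi hn
    rw [hT, mem_insert, hG, mem_filter, mem_Icc] at hn
    rw [mem_range] at hi
    rcases Nat.eq_zero_or_pos i with h0 | h0
    · rw [h0, hδ0]
    · by_contra hne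
      exact hn (Or.inr ⟨⟨h0, by omega⟩, hne⟩)
  have hfac : ∀ i, i < p → ((i.factorial : ℕ) : k) ≠ 0 := by
    intro i hi
    rw [Ne, CharP.cast_eq_zero_iff k p, hpp.dvd_factorial]
    omega
  have hcast : ∀ n : ℕ, 0 < n → n < p → (n : k) ≠ 0 := by
    intro n h0 hn h
    exact h0.ne' (cast_inj' (p := p) hn (by omega) (by rw [h, Nat.cast_zero]))
  let P : Finset (ℕ ⊕ ℕ × ℕ) := (range 3).disjSum (range 4 ×ˢ U)
  let X' : ℕ → k := fun t => ((x t : ℕ) : k)
  let h : k := ((H : ℕ) : k)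
  let δ' : ℕ → k := fun i => δ i / (i.factorial : ℕ)
  have hSQ : ∀ (c : k) (n : ℕ), n < M + 1 → ∑ i ∈ T, δ' i * SQ i c n =
      ∑ i ∈ range (n + 1), (n.choose i : k) * c ^ (n - i) * δ i := by
    intro c n hn
    rw [Finset.sum_subset hTsub (fun i hi hn => by simp only [δ']; rw [hTn i hi hn]; simp)]
    have e4 : ∀ i ∈ range (M + 1), δ' i * SQ i c n = (n.choose i : k) * c ^ (n - i) * δ i := by
      intro i hi
      rw [mem_range] at hi
      have hf := hfac i (by omega)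
      simp only [δ']
      rw [SQ, Nat.descFactorial_eq_factorial_mul_choose]
      push_cast
      field_simp
    rw [Finset.sum_congr rfl e4]
    rw [← Finset.sum_subset (s₁ := range (n + 1)) (fun i hi => mem_range.2 (by
      rw [mem_range] at hi; omega)) (fun i _ hn => by
        rw [mem_range, not_lt] at hn
        rw [Nat.choose_eq_zero_of_lt (by omega), Nat.cast_zero, zero_mul, zero_mul])]
  have h1T : 1 ∈ T := by rw [hT]; exact mem_insert_self _ _
  have hone : ∀ (c d : k) (n : ℕ), ∑ i ∈ T, (if i = 1 then c else 0) * SQ i d n =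
      c * ((n : k) * d ^ (n - 1)) := by
    intro c d n
    rw [Finset.sum_eq_single 1]
    · rw [if_pos rfl, SQ, Nat.descFactorial_one]
    · intro i _ hi
      rw [if_neg hi, zero_mul]
    · intro h
      exact absurd h1T h
  have hrel : ∀ n < M + 1, ∑ J ∈ P, ∑ i ∈ T, bc w δ' ξ ε J i * SQ i (lam X' h J) n = 0 := by
    intro n hn
    have h3 := rel3 p w x L N₁ H ξ hw hwL hsum hx hxL ε δ (fun i => rfl) n (by omega)
    rw [Finset.sum_disjSum, Finset.sum_product]
    rw [Finset.sum_range_succ, Finset.sum_range_succ, Finset.sum_range_succ, Finset.sum_range_zero,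
      Finset.sum_range_succ, Finset.sum_range_succ, Finset.sum_range_succ, Finset.sum_range_succ,
      Finset.sum_range_zero]
    have e0 : ∑ i ∈ T, bc w δ' ξ ε (Sum.inl 0) i * SQ i (lam X' h (Sum.inl 0)) n =
        (ξ ^ 2 + 1) * (∑ i ∈ range (n + 1), (n.choose i : k) * h ^ (n - i) * δ i) := by
      rw [← hSQ _ _ hn, Finset.mul_sum]
      refine Finset.sum_congr rfl fun i _ => ?_
      simp only [bc, lam]
      ring
    have e1 : ∑ i ∈ T, bc w δ' ξ ε (Sum.inl 1) i * SQ i (lam X' h (Sum.inl 1)) n =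
        -ξ * (∑ i ∈ range (n + 1), (n.choose i : k) * (2 * h) ^ (n - i) * δ i) := by
      rw [← hSQ _ _ hn, Finset.mul_sum]
      refine Finset.sum_congr rfl fun i _ => ?_
      simp only [bc, lam]
      ring
    have e2 : ∑ i ∈ T, bc w δ' ξ ε (Sum.inl 2) i * SQ i (lam X' h (Sum.inl 2)) n =
        -ξ * (∑ i ∈ range (n + 1), (n.choose i : k) * 0 ^ (n - i) * δ i) := by
      rw [← hSQ _ _ hn, Finset.mul_sum]
      refine Finset.sum_congr rfl fun i _ => ?_
      simp only [bc, lam]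
      ring
    have f0 : ∀ t, ∑ i ∈ T, bc w δ' ξ ε (Sum.inr (0, t)) i * SQ i (lam X' h (Sum.inr (0, t))) n =
        -(w t * ξ) * ((n : k) * (X' t) ^ (n - 1)) := fun t => hone _ _ _
    have f1 : ∀ t, ∑ i ∈ T, bc w δ' ξ ε (Sum.inr (1, t)) i * SQ i (lam X' h (Sum.inr (1, t))) n =
        w t * ((n : k) * (X' t + h) ^ (n - 1)) := fun t => hone _ _ _
    have f2 : ∀ t, ∑ i ∈ T, bc w δ' ξ ε (Sum.inr (2, t)) i * SQ i (lam X' h (Sum.inr (2, t))) n =
        -(ε * w t) * ((n : k) * (h - X' t) ^ (n - 1)) := fun t => hone _ _ _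
    have f3 : ∀ t, ∑ i ∈ T, bc w δ' ξ ε (Sum.inr (3, t)) i * SQ i (lam X' h (Sum.inr (3, t))) n =
        ε * ξ * w t * ((n : k) * (2 * h - X' t) ^ (n - 1)) := fun t => hone _ _ _
    simp only [f0, f1, f2, f3]
    rw [e0, e1, e2]
    have h4 : ∑ t ∈ range N₁, w t * (ξ * ((n : k) * ((x t : ℕ) : k) ^ (n - 1)) -
        (n : k) * (((x t : ℕ) : k) + (H : ℕ)) ^ (n - 1) + ε * ((n : k) * (((H : ℕ) : k) - (x t : ℕ)) ^ (n - 1)) -
        ε * ξ * ((n : k) * (2 * ((H : ℕ) : k) - (x t : ℕ)) ^ (n - 1))) =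
        ∑ t ∈ U, w t * (ξ * ((n : k) * ((x t : ℕ) : k) ^ (n - 1)) -
        (n : k) * (((x t : ℕ) : k) + (H : ℕ)) ^ (n - 1) + ε * ((n : k) * (((H : ℕ) : k) - (x t : ℕ)) ^ (n - 1)) -
        ε * ξ * ((n : k) * (2 * ((H : ℕ) : k) - (x t : ℕ)) ^ (n - 1))) := by
      rw [← Finset.sum_subset hU]
      intro t ht htU
      rw [hUw t ht htU, zero_mul]
    rw [h4] at h3
    have h5 : ∑ t ∈ U, -(w t * ξ) * ((n : k) * (X' t) ^ (n - 1)) +
        ∑ t ∈ U, w t * ((n : k) * (X' t + h) ^ (n - 1)) +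
        ∑ t ∈ U, -(ε * w t) * ((n : k) * (h - X' t) ^ (n - 1)) +
        ∑ t ∈ U, ε * ξ * w t * ((n : k) * (2 * h - X' t) ^ (n - 1)) =
        - ∑ t ∈ U, w t * (ξ * ((n : k) * ((x t : ℕ) : k) ^ (n - 1)) -
        (n : k) * (((x t : ℕ) : k) + (H : ℕ)) ^ (n - 1) + ε * ((n : k) * (((H : ℕ) : k) - (x t : ℕ)) ^ (n - 1)) -
        ε * ξ * ((n : k) * (2 * ((H : ℕ) : k) - (x t : ℕ)) ^ (n - 1))) := by
      rw [← Finset.sum_neg_distrib, ← Finset.sum_add_distrib, ← Finset.sum_add_distrib,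
        ← Finset.sum_add_distrib]
      refine Finset.sum_congr rfl fun t _ => ?_
      simp only [X', h]
      ring
    linear_combination h3 + h5
  have hmain := ze_family P (lam X' h) T
    (fun i hi j hj h => cast_inj' (p := p) (by have := hTM i hi; omega) (by have := hTM j hj; omega) h)
    (M + 1) (fun n h0 hn => hcast n h0 (by omega)) (bc w δ' ξ ε) hrel (Sum.inr (0, 0))
    (by
      rw [Finset.inr_mem_disjSum, Finset.mem_product]
      exact ⟨mem_range.2 (by norm_num), h0U⟩)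
    (by
      intro J hJ hJ1
      rcases J with a | ⟨a, t⟩
      · rw [Finset.inl_mem_disjSum, mem_range] at hJ
        exfalso
        interval_cases a
        · exact hd2 hJ1.symm
        · exact hd3 hJ1.symm
        · exact hd1 hJ1.symm
      · rw [Finset.inr_mem_disjSum, Finset.mem_product, mem_range] at hJ
        obtain ⟨ha, ht⟩ := hJ
        simp only at ha ht
        interval_cases a
        · by_cases ht0 : t = 0
          · rw [ht0]
          · exact absurd hJ1 (hd4 t ht ht0)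
        · exact absurd hJ1 (hd5 t ht)
        · exact absurd hJ1 (hd6 t ht)
        · exact absurd hJ1 (hd7 t ht))
    1 h1T
    (by
      simp only [bc, if_true]
      exact neg_ne_zero.2 (mul_ne_zero hw0 hξ))
  have hPc : P.card = 4 * U.card + 3 := by
    rw [Finset.card_disjSum, Finset.card_product, card_range, card_range]
    ring
  have hGS : T ⊆ insert 1 S := by
    intro m hm
    rw [hT, mem_insert] at hm
    rw [mem_insert]
    by_cases hm1 : m = 1
    · exact Or.inl hm1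
    right
    replace hm := hm.resolve_left hm1
    rw [hG, mem_filter, mem_Icc] at hm
    by_contra hmS
    apply hm.2
    by_cases hpar : Even (m + e)
    · simp only [hδ]
      rw [hS m (by omega) hm.1.2 hpar hmS]
      ring
    · have hodd : Odd (m + e) := Nat.not_even_iff_odd.1 hpar
      have h6 : ε * (-1) ^ m = -1 := by
        rw [hε, ← pow_add, add_comm e m]
        exact hodd.neg_one_pow
      simp only [hδ]
      linear_combination (Lam w x L (X ^ m : k[X])) * h6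
  have hTc : T.card ≤ S.card + 1 :=
    (Finset.card_le_card hGS).trans (Finset.card_insert_le 1 S)
  rw [hPc] at hmain
  have h5 : (4 * U.card + 3) * (4 * U.card + 3 - 1) * T.card ^ 2 ≤
      (4 * U.card + 3) * (4 * U.card + 2) * (S.card + 1) ^ 2 := by
    gcongr
    omega
  omega

end

end Pool.Agent.R480.TC
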